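import Mathlib

open scoped ENNReal RealInnerProductSpace

namespace Pool.Agent.Results.MP_93c8fe_an.NoOversampling

/-- The real Hilbert space `ℓ₂` of square summable real sequences. -/
abbrev Ell2 : Type := lp (fun _ : ℕ => ℝ) 2

/-- Gelfand numbers `c_n(S, F)`: the infimum over all choices of `n` continuous linear functionals
`L_1, …, L_n` on `X` of the supremum of `‖S f - S g‖ / 2` over `f, g ∈ F` with `L_k f = L_k g`. -/
noncomputable def gelfand {X Y : Type*} [NormedAddCommGroup X] [NormedSpace ℝ X]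
    [NormedAddCommGroup Y] [NormedSpace ℝ Y] (S : X →L[ℝ] Y) (F : Set X) (n : ℕ) : ℝ≥0∞ :=
  ⨅ L : Fin n → (X →L[ℝ] ℝ), ⨆ (f ∈ F) (g ∈ F) (_ : ∀ k, L k f = L k g),
    ENNReal.ofReal (‖S f - S g‖ / 2)

/-- Hilbert numbers `h_n(S, F)`: the supremum of the Gelfand numbers
`c_n(B ∘ S ∘ A, closed unit ball of ℓ₂)` over all `B : Y → ℓ₂` with `‖B‖ ≤ 1`, all bounded
linear `A : ℓ₂ → X` and all `x ∈ F` with `A(unit ball) + x ⊆ F`. -/
noncomputable def hilbertNumber {X Y : Type*} [NormedAddCommGroup X] [NormedSpace ℝ X]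
    [NormedAddCommGroup Y] [NormedSpace ℝ Y] (S : X →L[ℝ] Y) (F : Set X) (n : ℕ) : ℝ≥0∞ :=
  ⨆ (B : Y →L[ℝ] Ell2) (_ : ‖B‖ ≤ 1) (A : Ell2 →L[ℝ] X) (x : X) (_ : x ∈ F)
    (_ : ∀ u ∈ Metric.closedBall (0 : Ell2) 1, A u + x ∈ F),
    gelfand (B ∘L S ∘L A) (Metric.closedBall (0 : Ell2) 1) n

section det

variable {n : ℕ}

abbrev E (n : ℕ) : Type := EuclideanSpace ℝ (Fin n)

/-- Hadamard: `|det N| ≤ ∏ ‖N v_k‖` for an orthonormal basis `v`. -/
lemma abs_det_le (N : E n →ₗ[ℝ] E n) (v : OrthonormalBasis (Fin n) ℝ (E n)) :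
    |LinearMap.det N| ≤ ∏ k, ‖N (v k)‖ := by
  have : Fact (Module.finrank ℝ (E n) = n) := ⟨by simp⟩
  set b := v.toBasis with hb
  rcases Nat.eq_zero_or_pos n with h0 | hpos
  · subst h0
    have : LinearMap.det N = 1 := by
      rw [LinearMap.det_eq_one_of_subsingleton]
    simp [this]
  · have : Nonempty (Fin n) := ⟨⟨0, hpos⟩⟩
    have h1 : v.toBasis.det (N ∘ v) = LinearMap.det N := by
      have := Module.Basis.det_comp v.toBasis N v
      rw [this]
      have h2 : v.toBasis.det (⇑v) = 1 := by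
        have := v.toBasis.det_self
        simpa using this
      rw [h2, mul_one]
    have h3 := (v.toBasis.orientation).volumeForm_robust v rfl
    rw [← h1, ← h3]
    exact (v.toBasis.orientation).abs_volumeForm_apply_le _

/-- greedy construction of an orthonormal basis in the kernels of few functionals. -/
lemma exists_orthonormal (W : (i : ℕ) → (Fin (n - 1 - i) → (E n →ₗ[ℝ] ℝ))) :
    ∀ m ≤ n, ∃ v : ℕ → E n, ∀ i < m, ‖v i‖ = 1 ∧ (∀ j < i, inner ℝ (v j) (v i) = 0) ∧
      ∀ l, W i l (v i) = 0 := by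
  intro m
  induction m with
  | zero => intro _; exact ⟨fun _ => 0, fun i hi => absurd hi (Nat.not_lt_zero i)⟩
  | succ m ih =>
    intro hm
    obtain ⟨v, hv⟩ := ih (by omega)
    -- linear map to R^(n-1-m) x R^m
    let Φ : E n →ₗ[ℝ] ((Fin (n - 1 - m) → ℝ) × (Fin m → ℝ)) :=
      LinearMap.prod (LinearMap.pi (fun l => W m l))
        (LinearMap.pi (fun j : Fin m => (innerₗ (E n) (v j))))
    have hker : LinearMap.ker Φ ≠ ⊥ := by
      apply LinearMap.ker_ne_bot_of_finrank_lt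
      simp
      omega
    obtain ⟨x, hx, hx0⟩ := (Submodule.ne_bot_iff _).1 hker
    have hxn : ‖x‖ ≠ 0 := by simpa using hx0
    rw [LinearMap.mem_ker] at hx
    have hx1 : ∀ l, W m l x = 0 := fun l => by
      have := congrArg (fun p => p.1 l) hx
      simpa [Φ] using this
    have hx2 : ∀ j : Fin m, inner ℝ (v j) x = 0 := fun j => by
      have := congrArg (fun p => p.2 j) hx
      simpa [Φ] using this
    refine ⟨Function.update v m ((‖x‖)⁻¹ • x), ?_⟩
    intro i hi
    rcases Nat.lt_succ_iff_lt_or_eq.1 hi with h | h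
    · have hne : i ≠ m := by omega
      rw [Function.update_of_ne hne]
      refine ⟨(hv i h).1, ?_, (hv i h).2.2⟩
      intro j hj
      rw [Function.update_of_ne (by omega)]
      exact (hv i h).2.1 j hj
    · subst h
      rw [Function.update_self]
      refine ⟨?_, ?_, ?_⟩
      · rw [norm_smul, norm_inv, norm_norm, inv_mul_cancel₀ hxn]
      · intro j hj
        rw [Function.update_of_ne (by omega), inner_smul_right]
        have := hx2 ⟨j, hj⟩
        simp only at this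
        rw [this, mul_zero]
      · intro l
        rw [map_smul, hx1 l, smul_zero]

end det


section greedy

variable {X Y : Type*} [NormedAddCommGroup X] [NormedSpace ℝ X]
    [NormedAddCommGroup Y] [NormedSpace ℝ Y]

lemma exists_unit {S : X →L[ℝ] Y} {m : ℕ} {t : ℝ}
    (ht : ENNReal.ofReal t < gelfand S (Metric.closedBall (0 : X) 1) m)
    (L : Fin m → (X →L[ℝ] ℝ)) : ∃ x : X, ‖x‖ ≤ 1 ∧ (∀ k, L k x = 0) ∧ t < ‖S x‖ := by
  have h1 := lt_of_lt_of_le ht (iInf_le _ L)
  simp only [lt_iSup_iff] at h1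
  obtain ⟨f, hf, g, hg, hL, hlt⟩ := h1
  refine ⟨(1 / 2 : ℝ) • (f - g), ?_, ?_, ?_⟩
  · rw [mem_closedBall_zero_iff] at hf hg
    rw [norm_smul]
    have := norm_sub_le f g
    rw [Real.norm_of_nonneg (by norm_num)]
    linarith
  · intro k
    rw [map_smul, map_sub, hL k, sub_self, smul_zero]
  · have h2 : t < ‖S f - S g‖ / 2 := by
      by_contra hcon
      push Not at hcon
      exact absurd hlt (not_lt.2 (ENNReal.ofReal_le_ofReal hcon))
    rw [map_smul, map_sub, norm_smul, Real.norm_of_nonneg (by norm_num)]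
    linarith

lemma exists_greedy {S : X →L[ℝ] Y} {n : ℕ} {t : ℝ} (hn : 0 < n)
    (ht : ENNReal.ofReal t < gelfand S (Metric.closedBall (0 : X) 1) (n - 1)) :
    ∀ m ≤ n, ∃ (φ : ℕ → (Y →L[ℝ] ℝ)) (x : ℕ → X), ∀ k < m, ‖φ k‖ ≤ 1 ∧ ‖x k‖ ≤ 1 ∧
      (∀ j < k, φ j (S (x k)) = 0) ∧ t < φ k (S (x k)) := by
  intro m
  induction m with
  | zero => intro _; exact ⟨fun _ => 0, fun _ => 0, fun k hk => absurd hk (Nat.not_lt_zero k)⟩
  | succ m ih =>
    intro hm
    obtain ⟨φ, x, hφ⟩ := ih (by omega)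
    obtain ⟨y, hy1, hy2, hy3⟩ := exists_unit ht
      (fun j : Fin (n - 1) => if (j : ℕ) < m then (φ j) ∘L S else 0)
    obtain ⟨g, hg1, hg2⟩ := exists_dual_vector'' ℝ (S y)
    refine ⟨Function.update φ m g, Function.update x m y, ?_⟩
    intro k hk
    rcases Nat.lt_succ_iff_lt_or_eq.1 hk with h | h
    · have hne : k ≠ m := by omega
      rw [Function.update_of_ne hne, Function.update_of_ne hne]
      refine ⟨(hφ k h).1, (hφ k h).2.1, ?_, (hφ k h).2.2.2⟩
      intro j hj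
      rw [Function.update_of_ne (by omega)]
      exact (hφ k h).2.2.1 j hj
    · subst h
      rw [Function.update_self, Function.update_self]
      refine ⟨hg1, hy1, ?_, ?_⟩
      · intro j hj
        rw [Function.update_of_ne (by omega)]
        have := hy2 ⟨j, by omega⟩
        simp only [hj, if_true] at this
        simpa using this
      · rw [hg2]
        simpa using hy3

end greedy

section embed

/-- isometric embedding of `ℝⁿ` into `ℓ₂`. -/
noncomputable def emb (n : ℕ) : E n →ₗ[ℝ] Ell2 where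
  toFun a := ∑ k : Fin n, lp.single 2 (k : ℕ) (a k)
  map_add' a b := by
    rw [← Finset.sum_add_distrib]
    refine Finset.sum_congr rfl fun k _ => ?_
    rw [← lp.single_add]
    rfl
  map_smul' c a := by
    rw [RingHom.id_apply, Finset.smul_sum]
    refine Finset.sum_congr rfl fun k _ => ?_
    rw [← lp.single_smul]
    rfl

lemma norm_sum_single_sq (s : Finset ℕ) (f : ℕ → ℝ) :
    ‖∑ i ∈ s, (lp.single 2 i (f i) : Ell2)‖ ^ 2 = ∑ i ∈ s, (f i) ^ 2 := by
  have h := lp.norm_sum_single (E := fun _ : ℕ => ℝ) (p := 2) (by norm_num) f s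
  have h2 : (2 : ℝ≥0∞).toReal = ((2 : ℕ) : ℝ) := by norm_num
  rw [h2] at h
  simp only [Real.rpow_natCast] at h
  rw [h]
  refine Finset.sum_congr rfl fun i _ => ?_
  rw [Real.norm_eq_abs, sq_abs]

lemma norm_emb {n : ℕ} (a : E n) : ‖emb n a‖ = ‖a‖ := by
  have h : emb n a = ∑ i ∈ Finset.range n,
      (lp.single 2 i ((fun i => if h : i < n then a ⟨i, h⟩ else 0) i) : Ell2) := by
    rw [Finset.sum_range]
    change ∑ k : Fin n, (lp.single 2 (k : ℕ) (a k) : Ell2) = _
    refine Finset.sum_congr rfl fun k _ => ?_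
    simp
  have h2 : ‖emb n a‖ ^ 2 = ‖a‖ ^ 2 := by
    rw [h, norm_sum_single_sq, EuclideanSpace.norm_sq_eq, Finset.sum_range]
    refine Finset.sum_congr rfl fun k _ => ?_
    simp
  exact (sq_eq_sq₀ (norm_nonneg _) (norm_nonneg _)).1 h2

end embed

section main

variable {X Y : Type*} [NormedAddCommGroup X] [InnerProductSpace ℝ X] [CompleteSpace X]
    [NormedAddCommGroup Y] [NormedSpace ℝ Y]

open InnerProductSpace in
lemma exists_basis {S : X →L[ℝ] Y} {n : ℕ} {t : ℝ} (ht0 : 0 ≤ t) (φ : ℕ → (Y →L[ℝ] ℝ))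
    (x : ℕ → X) (h : ∀ k < n, ‖φ k‖ ≤ 1 ∧ ‖x k‖ ≤ 1 ∧
      (∀ j < k, φ j (S (x k)) = 0) ∧ t < φ k (S (x k))) :
    ∃ u : ℕ → X, (∀ k < n, ∀ j < k, φ j (S (u k)) = 0) ∧ (∀ k < n, t < φ k (S (u k))) ∧
      (∀ k < n, ‖u k‖ = 1) ∧ (∀ k < n, ∀ j < k, inner ℝ (u j) (u k) = 0) := by
  let z : ℕ → X := fun k => (toDual ℝ X).symm (φ k ∘L S)
  have hz : ∀ k w, inner ℝ (z k) w = φ k (S w) := fun k w => by
    simp only [z, toDual_symm_apply]
    rfl
  let gs := gramSchmidt ℝ z
  have hgs : ∀ k, inner ℝ (z k) (gs k) = ‖gs k‖ ^ 2 := by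
    intro k
    have h1 : z k = gs k + ∑ i ∈ Finset.Iio k, (ℝ ∙ gs i).starProjection (z k) :=
      gramSchmidt_def' ℝ z k
    have h2 : inner ℝ (z k) (gs k) = inner ℝ (gs k) (gs k) := by
      conv_lhs => rw [h1]
      rw [inner_add_left, sum_inner, Finset.sum_eq_zero, add_zero]
      intro i hi
      have hi' : i < k := Finset.mem_Iio.1 hi
      have : (ℝ ∙ gs i).starProjection (z k) ∈ (ℝ ∙ gs i) := Submodule.starProjection_apply_mem _ _
      obtain ⟨c, hc⟩ := Submodule.mem_span_singleton.1 this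
      rw [← hc, inner_smul_left, gramSchmidt_orthogonal ℝ z (ne_of_lt hi'), mul_zero]
    rw [h2, real_inner_self_eq_norm_sq]
  have hF1 : ∀ k < n, t < ‖gs k‖ := by
    intro k hk
    obtain ⟨h1, h2, h3, h4⟩ := h k hk
    have hperp : ∀ w ∈ Submodule.span ℝ (z '' Set.Iio k), inner ℝ w (x k) = 0 := by
      intro w hw
      induction hw using Submodule.span_induction with
      | mem w hw =>
        obtain ⟨j, hj, rfl⟩ := hw
        rw [hz]
        exact h3 j hj
      | zero => simp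
      | add a b _ _ ha hb => rw [inner_add_left, ha, hb, add_zero]
      | smul c a _ ha => rw [inner_smul_left, ha, mul_zero]
    have hsub : z k - gs k ∈ Submodule.span ℝ (z '' Set.Iio k) := by
      have h1 : z k = gs k + ∑ i ∈ Finset.Iio k, (ℝ ∙ gs i).starProjection (z k) :=
        gramSchmidt_def' ℝ z k
      have h5 : z k - gs k = ∑ i ∈ Finset.Iio k, (ℝ ∙ gs i).starProjection (z k) := by
        rw [sub_eq_iff_eq_add, add_comm]
        exact h1
      rw [h5]
      refine Submodule.sum_mem _ fun i hi => ?_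
      have hi' : i < k := Finset.mem_Iio.1 hi
      have : (ℝ ∙ gs i).starProjection (z k) ∈ (ℝ ∙ gs i) := Submodule.starProjection_apply_mem _ _
      obtain ⟨c, hc⟩ := Submodule.mem_span_singleton.1 this
      rw [← hc]
      refine Submodule.smul_mem _ _ ?_
      have h6 := gramSchmidt_mem_span ℝ z (le_refl i)
      refine Submodule.span_mono ?_ h6
      exact Set.image_mono fun j hj => lt_of_le_of_lt hj hi'
    have h7 : inner ℝ (z k) (x k) = inner ℝ (gs k) (x k) := by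
      have := hperp _ hsub
      rw [inner_sub_left, sub_eq_zero] at this
      exact this
    rw [hz] at h7
    have h8 : inner ℝ (gs k) (x k) ≤ ‖gs k‖ * ‖x k‖ := real_inner_le_norm _ _
    have h9 : ‖gs k‖ * ‖x k‖ ≤ ‖gs k‖ := mul_le_of_le_one_right (norm_nonneg _) h2
    linarith
  have hpos : ∀ k < n, 0 < ‖gs k‖ := fun k hk => lt_of_le_of_lt ht0 (hF1 k hk)
  refine ⟨fun k => (‖gs k‖)⁻¹ • gs k, ?_, ?_, ?_, ?_⟩
  · intro k hk j hj
    simp only
    rw [← hz, inner_smul_right, real_inner_comm, gramSchmidt_inv_triangular ℝ z hj, mul_zero]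
  · intro k hk
    simp only
    rw [← hz, inner_smul_right, hgs k, sq, ← mul_assoc, inv_mul_cancel₀ (hpos k hk).ne', one_mul]
    exact hF1 k hk
  · intro k hk
    simp only
    rw [norm_smul, norm_inv, norm_norm, inv_mul_cancel₀ (hpos k hk).ne']
  · intro k hk j hj
    simp only
    rw [inner_smul_left, inner_smul_right, gramSchmidt_orthogonal ℝ z (ne_of_lt hj), mul_zero,
      mul_zero]

/-- the coordinate functional on `ℓ₂`. -/
noncomputable def coord (k : ℕ) : Ell2 →L[ℝ] ℝ := lp.evalCLM ℝ (fun _ : ℕ => ℝ) 2 k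

lemma coord_apply (k : ℕ) (a : Ell2) : coord k a = a k := rfl

lemma coord_emb {n : ℕ} (a : E n) (k : Fin n) : coord (k : ℕ) (emb n a) = a k := by
  change coord (k : ℕ) (∑ i : Fin n, (lp.single 2 (i : ℕ) (a i) : Ell2)) = _
  rw [map_sum]
  rw [Finset.sum_eq_single k]
  · rw [coord_apply, lp.single_apply_self]
  · intro b _ hb
    rw [coord_apply, lp.single_apply_ne]
    intro h
    exact hb (Fin.ext h.symm)
  · intro h
    exact absurd (Finset.mem_univ _) h

lemma sum_coord_sq_le (n : ℕ) (a : Ell2) : ∑ k ∈ Finset.range n, (coord k a) ^ 2 ≤ ‖a‖ ^ 2 := by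
  have h := lp.sum_rpow_le_norm_rpow (E := fun _ : ℕ => ℝ) (p := 2) (by norm_num) a
    (Finset.range n)
  have h2 : (2 : ℝ≥0∞).toReal = ((2 : ℕ) : ℝ) := by norm_num
  rw [h2] at h
  simp only [Real.rpow_natCast] at h
  refine le_trans (le_of_eq ?_) h
  refine Finset.sum_congr rfl fun i _ => ?_
  rw [Real.norm_eq_abs, sq_abs, coord_apply]

/-- the operator `A`. -/
noncomputable def opA (n : ℕ) (u : ℕ → X) : Ell2 →L[ℝ] X :=
  ∑ k ∈ Finset.range n, (coord k).smulRight (u k)

omit [CompleteSpace X] in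
lemma opA_apply (n : ℕ) (u : ℕ → X) (a : Ell2) :
    opA n u a = ∑ k ∈ Finset.range n, coord k a • u k := by
  simp [opA]

omit [CompleteSpace X] in
lemma norm_sum_sq {n : ℕ} {u : ℕ → X} (hu1 : ∀ k < n, ‖u k‖ = 1)
    (hu2 : ∀ k < n, ∀ j < k, inner ℝ (u j) (u k) = 0) (c : ℕ → ℝ) :
    ‖∑ k ∈ Finset.range n, c k • u k‖ ^ 2 = ∑ k ∈ Finset.range n, (c k) ^ 2 := by
  rw [← real_inner_self_eq_norm_sq, sum_inner]
  refine Finset.sum_congr rfl fun j hj => ?_
  rw [inner_sum, Finset.sum_eq_single j]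
  · rw [inner_smul_left, inner_smul_right, real_inner_self_eq_norm_sq,
      hu1 j (Finset.mem_range.1 hj)]
    simp
    ring
  · intro k hk hkj
    rw [inner_smul_left, inner_smul_right]
    rcases lt_or_gt_of_ne hkj with h | h
    · rw [real_inner_comm, hu2 j (Finset.mem_range.1 hj) k h]
      simp
    · rw [hu2 k (Finset.mem_range.1 hk) j h]
      simp
  · intro h
    exact absurd hj h

omit [CompleteSpace X] in
lemma norm_opA_le {n : ℕ} {u : ℕ → X} (hu1 : ∀ k < n, ‖u k‖ = 1)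
    (hu2 : ∀ k < n, ∀ j < k, inner ℝ (u j) (u k) = 0) (a : Ell2) : ‖opA n u a‖ ≤ ‖a‖ := by
  have h : ‖opA n u a‖ ^ 2 ≤ ‖a‖ ^ 2 := by
    rw [opA_apply, norm_sum_sq hu1 hu2]
    exact sum_coord_sq_le n a
  exact (sq_le_sq₀ (norm_nonneg _) (norm_nonneg _)).1 h

/-- the operator `B`. -/
noncomputable def opB (n : ℕ) (φ : ℕ → (Y →L[ℝ] ℝ)) : Y →L[ℝ] Ell2 :=
  ∑ k ∈ Finset.range n, (((Real.sqrt n)⁻¹) • φ k).smulRight (lp.single 2 k (1 : ℝ) : Ell2)

lemma opB_sq (n : ℕ) (φ : ℕ → (Y →L[ℝ] ℝ)) (y : Y) :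
    ‖opB n φ y‖ ^ 2 = (n : ℝ)⁻¹ * ∑ k ∈ Finset.range n, (φ k y) ^ 2 := by
  have h : opB n φ y = ∑ k ∈ Finset.range n,
      (lp.single 2 k ((Real.sqrt n)⁻¹ * φ k y) : Ell2) := by
    simp only [opB, sum_apply, ContinuousLinearMap.smulRight_apply]
    refine Finset.sum_congr rfl fun k _ => ?_
    rw [← lp.single_smul]
    simp
  rw [h, norm_sum_single_sq, Finset.mul_sum]
  refine Finset.sum_congr rfl fun k _ => ?_
  rw [mul_pow, inv_pow, Real.sq_sqrt (Nat.cast_nonneg n)]

lemma norm_opB_le {n : ℕ} (hn : 0 < n) (φ : ℕ → (Y →L[ℝ] ℝ)) (hφ : ∀ k < n, ‖φ k‖ ≤ 1) :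
    ‖opB n φ‖ ≤ 1 := by
  refine ContinuousLinearMap.opNorm_le_bound _ zero_le_one fun y => ?_
  rw [one_mul]
  refine (sq_le_sq₀ (norm_nonneg _) (norm_nonneg _)).1 ?_
  rw [opB_sq]
  have h1 : ∀ k ∈ Finset.range n, (φ k y) ^ 2 ≤ ‖y‖ ^ 2 := by
    intro k hk
    have h2 := (φ k).le_opNorm y
    have h3 : ‖φ k y‖ ≤ ‖y‖ :=
      h2.trans (mul_le_of_le_one_left (norm_nonneg _) (hφ k (Finset.mem_range.1 hk)))
    rw [← sq_abs (φ k y), ← Real.norm_eq_abs]
    exact pow_le_pow_left₀ (norm_nonneg _) h3 2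
  have h4 := Finset.sum_le_sum h1
  rw [Finset.sum_const, Finset.card_range, nsmul_eq_mul] at h4
  have hn' : (0 : ℝ) < n := by exact_mod_cast hn
  calc (n : ℝ)⁻¹ * ∑ k ∈ Finset.range n, (φ k y) ^ 2 ≤ (n : ℝ)⁻¹ * (n * ‖y‖ ^ 2) :=
        mul_le_mul_of_nonneg_left h4 (by positivity)
    _ = ‖y‖ ^ 2 := by field_simp

/-- The real core of the inequality. -/
lemma core {S : X →L[ℝ] Y} {n : ℕ} {t : ℝ} (hn : 0 < n) (ht0 : 0 ≤ t)
    (ht : ENNReal.ofReal t < gelfand S (Metric.closedBall (0 : X) 1) (n - 1))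
    (r : ℕ → ℝ) (hr : ∀ k < n, hilbertNumber S (Metric.closedBall (0 : X) 1) k <
      ENNReal.ofReal (r k)) :
    t ^ n ≤ (Real.sqrt n) ^ n * ∏ k ∈ Finset.range n, r k := by
  obtain ⟨φ, x, hφ⟩ := exists_greedy hn ht n le_rfl
  obtain ⟨u, hu1, hu2, hu3, hu4⟩ := exists_basis ht0 φ x hφ
  set A := opA n u with hA
  set B := opB n φ with hB
  have hBn : ‖B‖ ≤ 1 := norm_opB_le hn φ fun k hk => (hφ k hk).1
  have hAn : ∀ a, ‖A a‖ ≤ ‖a‖ := norm_opA_le hu3 hu4
  have hgel : ∀ k < n, gelfand (B ∘L S ∘L A) (Metric.closedBall (0 : Ell2) 1) k <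
      ENNReal.ofReal (r k) := by
    intro k hk
    refine lt_of_le_of_lt ?_ (hr k hk)
    unfold hilbertNumber
    refine le_iSup_of_le B (le_iSup_of_le hBn (le_iSup_of_le A (le_iSup_of_le 0 ?_)))
    refine le_iSup_of_le (by simp) (le_iSup_of_le ?_ le_rfl)
    intro a ha
    rw [mem_closedBall_zero_iff] at ha ⊢
    rw [add_zero]
    exact (hAn a).trans ha
  have hrpos : ∀ k < n, 0 < r k := fun k hk => by
    have := hgel k hk
    by_contra hcon
    rw [ENNReal.ofReal_of_nonpos (not_lt.1 hcon)] at this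
    exact absurd this not_lt_zero
  have hL : ∀ k : ℕ, ∃ L : Fin k → (Ell2 →L[ℝ] ℝ), k < n → ∀ a : Ell2, ‖a‖ ≤ 1 →
      (∀ l, L l a = 0) → ‖B (S (A a))‖ ≤ r k := by
    intro k
    by_cases hk : k < n
    · have h1 := hgel k hk
      unfold gelfand at h1
      rw [iInf_lt_iff] at h1
      obtain ⟨L, hL⟩ := h1
      refine ⟨L, fun _ a ha hLa => ?_⟩
      have h2 : ENNReal.ofReal (‖(B ∘L S ∘L A) a - (B ∘L S ∘L A) (-a)‖ / 2) <
          ENNReal.ofReal (r k) := by
        refine lt_of_le_of_lt ?_ hL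
        refine le_iSup_of_le a (le_iSup_of_le (by simpa using ha)
          (le_iSup_of_le (-a) (le_iSup_of_le (by simpa using ha) (le_iSup_of_le ?_ le_rfl))))
        intro l
        rw [map_neg, hLa l, neg_zero]
      have h3 := (ENNReal.ofReal_lt_ofReal_iff (hrpos k hk)).1 h2
      have h4 : ‖(B ∘L S ∘L A) a - (B ∘L S ∘L A) (-a)‖ / 2 = ‖B (S (A a))‖ := by
        rw [map_neg, sub_neg_eq_add, ← two_smul ℝ, norm_smul]
        simp
      rw [h4] at h3
      exact h3.le
    · exact ⟨fun _ => 0, fun h => absurd h hk⟩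
  choose L hL using hL
  obtain ⟨v, hv⟩ := exists_orthonormal (n := n)
    (fun i l => ((L (n - 1 - i) l : Ell2 →L[ℝ] ℝ) : Ell2 →ₗ[ℝ] ℝ) ∘ₗ emb n) n le_rfl
  -- orthonormal basis
  have hvo : Orthonormal ℝ (fun i : Fin n => v i) := by
    constructor
    · intro i
      exact (hv i i.2).1
    · intro i j hij
      rcases lt_or_gt_of_ne hij with h | h
      · exact (hv j j.2).2.1 i h
      · change inner ℝ (v i) (v j) = 0
        rw [real_inner_comm]
        exact (hv i i.2).2.1 j h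
  have hcard : Fintype.card (Fin n) = Module.finrank ℝ (E n) := by simp
  obtain ⟨vb, hvb⟩ : ∃ vb : OrthonormalBasis (Fin n) ℝ (E n), ∀ i : Fin n, vb i = v i := by
    rcases Nat.eq_zero_or_pos n with h0 | hpos
    · omega
    · have : Nonempty (Fin n) := ⟨⟨0, hpos⟩⟩
      refine ⟨(basisOfOrthonormalOfCardEqFinrank hvo hcard).toOrthonormalBasis ?_, ?_⟩
      · simpa using hvo
      · intro i
        simp
  -- the matrix operator
  let N : E n →ₗ[ℝ] E n :=
    { toFun := fun a => WithLp.toLp 2 (fun j : Fin n => φ j (S (A (emb n a))))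
      map_add' := fun a b => by
        ext j
        simp
      map_smul' := fun c a => by
        ext j
        simp }
  have hN : ∀ a (j : Fin n), N a j = φ j (S (A (emb n a))) := fun a j => rfl
  have hNnorm : ∀ a, ‖N a‖ = Real.sqrt n * ‖B (S (A (emb n a)))‖ := by
    intro a
    have h1 : ‖N a‖ ^ 2 = (Real.sqrt n * ‖B (S (A (emb n a)))‖) ^ 2 := by
      rw [mul_pow, Real.sq_sqrt (Nat.cast_nonneg n), hB, opB_sq, EuclideanSpace.norm_sq_eq,
        Finset.sum_range, ← mul_assoc, mul_inv_cancel₀ (by exact_mod_cast hn.ne'), one_mul]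
      refine Finset.sum_congr rfl fun j _ => ?_
      rw [hN, Real.norm_eq_abs, sq_abs]
    exact (sq_eq_sq₀ (norm_nonneg _) (by positivity)).1 h1
  -- determinant
  have hdet : LinearMap.det N = ∏ k : Fin n, φ k (S (u k)) := by
    let b := (EuclideanSpace.basisFun (Fin n) ℝ).toBasis
    have hb : ∀ k, b k = EuclideanSpace.single k (1 : ℝ) := fun k => by
      simp [b]
    have hAe : ∀ k : Fin n, A (emb n (b k)) = u k := by
      intro k
      rw [hA, opA_apply, Finset.sum_range, Finset.sum_eq_single k]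
      · rw [coord_emb, hb]
        simp
      · intro j _ hj
        rw [coord_emb, hb]
        simp [hj]
      · intro h
        exact absurd (Finset.mem_univ _) h
    rw [← LinearMap.det_toMatrix b]
    have hM : LinearMap.toMatrix b b N = Matrix.of (fun j k : Fin n => φ j (S (u k))) := by
      ext j k
      rw [LinearMap.toMatrix_apply]
      simp only [b, OrthonormalBasis.coe_toBasis_repr_apply, EuclideanSpace.basisFun_repr,
        Matrix.of_apply]
      rw [hN]
      rw [← hAe k]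
    rw [hM, Matrix.det_of_isLowerTriangular]
    · rfl
    · intro i j hij
      have : (i : ℕ) < j := by simpa using hij
      exact hu1 j j.2 i this
  have h1 : t ^ n ≤ |LinearMap.det N| := by
    rw [hdet, Finset.abs_prod]
    have : t ^ n = ∏ _k : Fin n, t := by simp
    rw [this]
    refine Finset.prod_le_prod (fun _ _ => ht0) fun k _ => ?_
    exact (hu2 k k.2).le.trans (le_abs_self _)
  have h2 := abs_det_le N vb
  have h3 : ∏ k, ‖N (vb k)‖ ≤ ∏ k : Fin n, (Real.sqrt n * r (n - 1 - k)) := by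
    refine Finset.prod_le_prod (fun _ _ => norm_nonneg _) fun k _ => ?_
    rw [hvb, hNnorm]
    refine mul_le_mul_of_nonneg_left ?_ (Real.sqrt_nonneg _)
    refine hL (n - 1 - k) (by omega) (emb n (v k)) ?_ ?_
    · rw [norm_emb, (hv k k.2).1]
    · intro l
      exact (hv k k.2).2.2 l
  have h4 : ∏ k : Fin n, (Real.sqrt n * r (n - 1 - k)) =
      (Real.sqrt n) ^ n * ∏ k ∈ Finset.range n, r k := by
    rw [Finset.prod_mul_distrib]
    congr 1
    · simp
    · rw [← Finset.prod_range_reflect r n, Finset.prod_range]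
  linarith

omit [CompleteSpace X] in
lemma hilbertNumber_le (S : X →L[ℝ] Y) (k : ℕ) :
    hilbertNumber S (Metric.closedBall (0 : X) 1) k ≤ ENNReal.ofReal ‖S‖ := by
  unfold hilbertNumber
  refine iSup_le fun B => iSup_le fun hB => iSup_le fun A => iSup_le fun x => iSup_le fun _ =>
    iSup_le fun hA => ?_
  unfold gelfand
  refine (iInf_le _ (fun _ => 0)).trans ?_
  refine iSup_le fun f => iSup_le fun hf => iSup_le fun g => iSup_le fun hg => iSup_le fun _ => ?_
  refine ENNReal.ofReal_le_ofReal ?_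
  rw [mem_closedBall_zero_iff] at hf hg
  set w : Ell2 := (1 / 2 : ℝ) • (f - g) with hw
  have hwn : ‖w‖ ≤ 1 := by
    rw [hw, norm_smul, Real.norm_of_nonneg (by norm_num)]
    have := norm_sub_le f g
    linarith
  have h1 : ‖A w‖ ≤ 1 := by
    have ha := hA w (by simpa using hwn)
    have hb := hA (-w) (by simpa using hwn)
    rw [mem_closedBall_zero_iff] at ha hb
    have h2 : (2 : ℝ) • A w = (A w + x) - (A (-w) + x) := by
      rw [map_neg, two_smul]
      abel
    have h3 : ‖(2 : ℝ) • A w‖ ≤ 2 := by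
      rw [h2]
      have := norm_sub_le (A w + x) (A (-w) + x)
      linarith
    rw [norm_smul, Real.norm_of_nonneg (by norm_num)] at h3
    linarith
  have h4 : ‖(B ∘L S ∘L A) f - (B ∘L S ∘L A) g‖ / 2 = ‖B (S (A w))‖ := by
    rw [← map_sub]
    have : f - g = (2 : ℝ) • w := by
      rw [hw, smul_smul]
      norm_num
    rw [this, map_smul, norm_smul, Real.norm_of_nonneg (by norm_num)]
    simp
  rw [h4]
  calc ‖B (S (A w))‖ ≤ ‖B‖ * ‖S (A w)‖ := B.le_opNorm _
    _ ≤ 1 * ‖S (A w)‖ := mul_le_mul_of_nonneg_right hB (norm_nonneg _)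
    _ = ‖S (A w)‖ := one_mul _
    _ ≤ ‖S‖ * ‖A w‖ := S.le_opNorm _
    _ ≤ ‖S‖ := mul_le_of_le_one_right (norm_nonneg _) h1

end main

/-- **Full positive answer to Q1.** For every real Hilbert space `X`, every real Banach space `Y`,
every bounded linear `S : X → Y` and every `n ≥ 1`,
`c_{n-1}(S, B_X) ≤ n^{1/2} (∏_{k<n} h_k(S, B_X))^{1/n}`. -/
theorem result {X Y : Type*} [NormedAddCommGroup X] [InnerProductSpace ℝ X] [CompleteSpace X]
    [NormedAddCommGroup Y] [NormedSpace ℝ Y] [CompleteSpace Y] (S : X →L[ℝ] Y) (n : ℕ)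
    (hn : 1 ≤ n) :
    gelfand S (Metric.closedBall (0 : X) 1) (n - 1) ≤
      (n : ℝ≥0∞) ^ (1 / 2 : ℝ) *
        (∏ k ∈ Finset.range n, hilbertNumber S (Metric.closedBall (0 : X) 1) k) ^
          (1 / (n : ℝ)) := by
  set h : ℕ → ℝ≥0∞ := fun k => hilbertNumber S (Metric.closedBall (0 : X) 1) k with hh
  have hfin : ∀ k, h k ≠ ⊤ := fun k => ne_top_of_le_ne_top ENNReal.ofReal_ne_top
    (hilbertNumber_le S k)
  set H : ℕ → ℝ := fun k => (h k).toReal with hH
  have hH0 : ∀ k, 0 ≤ H k := fun k => ENNReal.toReal_nonneg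
  have hhH : ∀ k, h k = ENNReal.ofReal (H k) := fun k => (ENNReal.ofReal_toReal (hfin k)).symm
  have hn' : (0 : ℝ) < n := by exact_mod_cast hn
  have hP0 : 0 ≤ ∏ k ∈ Finset.range n, H k := Finset.prod_nonneg fun k _ => hH0 k
  have hR : (n : ℝ≥0∞) ^ (1 / 2 : ℝ) * (∏ k ∈ Finset.range n, h k) ^ (1 / (n : ℝ)) =
      ENNReal.ofReal (Real.sqrt n * (∏ k ∈ Finset.range n, H k) ^ (1 / (n : ℝ))) := by
    rw [ENNReal.ofReal_mul (Real.sqrt_nonneg _), Real.sqrt_eq_rpow,
      ← ENNReal.ofReal_rpow_of_nonneg hn'.le (by norm_num), ENNReal.ofReal_natCast,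
      ← ENNReal.ofReal_rpow_of_nonneg hP0 (by positivity),
      ENNReal.ofReal_prod_of_nonneg fun k _ => hH0 k]
    congr 2
    exact Finset.prod_congr rfl fun k _ => hhH k
  rw [hR]
  refine le_of_forall_lt fun c hc => ?_
  have hcfin : c ≠ ⊤ := ne_top_of_lt hc
  set t : ℝ := c.toReal with ht
  have hct : c = ENNReal.ofReal t := (ENNReal.ofReal_toReal hcfin).symm
  have ht0 : 0 ≤ t := ENNReal.toReal_nonneg
  obtain ⟨c', hcc', hc'⟩ := exists_between hc
  have hc'fin : c' ≠ ⊤ := ne_top_of_lt hc'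
  set t' : ℝ := c'.toReal with ht'
  have hct' : c' = ENNReal.ofReal t' := (ENNReal.ofReal_toReal hc'fin).symm
  have ht'0 : 0 ≤ t' := ENNReal.toReal_nonneg
  have key : t' ^ n ≤ (Real.sqrt n) ^ n * ∏ k ∈ Finset.range n, H k := by
    have hlim : Filter.Tendsto (fun ε : ℝ => (Real.sqrt n) ^ n * ∏ k ∈ Finset.range n, (H k + ε))
        (nhdsWithin 0 (Set.Ioi 0)) (nhds ((Real.sqrt n) ^ n * ∏ k ∈ Finset.range n, (H k + 0))) := by
      refine Filter.Tendsto.mono_left ?_ nhdsWithin_le_nhds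
      refine Continuous.tendsto ?_ 0
      fun_prop
    simp only [add_zero] at hlim
    refine ge_of_tendsto hlim ?_
    filter_upwards [self_mem_nhdsWithin] with ε hε
    have hε' : (0 : ℝ) < ε := hε
    refine core hn ht'0 (by rw [← hct']; exact hc') (fun k => H k + ε) fun k _ => ?_
    change h k < _
    rw [hhH k]
    exact (ENNReal.ofReal_lt_ofReal_iff (by have := hH0 k; linarith)).2 (by linarith)
  have key2 : t' ≤ Real.sqrt n * (∏ k ∈ Finset.range n, H k) ^ (1 / (n : ℝ)) := by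
    have hn0 : (n : ℕ) ≠ 0 := by omega
    have h1 : t' = (t' ^ n) ^ (1 / (n : ℝ)) := by
      rw [one_div, Real.pow_rpow_inv_natCast ht'0 hn0]
    have h2 : Real.sqrt n = ((Real.sqrt n) ^ n) ^ (1 / (n : ℝ)) := by
      rw [one_div, Real.pow_rpow_inv_natCast (Real.sqrt_nonneg _) hn0]
    rw [h1]
    conv_rhs => rw [h2]
    rw [← Real.mul_rpow (by positivity) hP0]
    exact Real.rpow_le_rpow (by positivity) key (by positivity)
  calc c < c' := hcc'
    _ = ENNReal.ofReal t' := hct'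
    _ ≤ _ := ENNReal.ofReal_le_ofReal key2

end Pool.Agent.Results.MP_93c8fe_an.NoOversampling
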